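import Pool.Agent.H78.OX.Targets
import Pool.Agent.H35.NB.EXI

/-! GDX: the copies say the bit with high probability (board ox_modules, MP_0f8dca_lc). -/

set_option autoImplicit false

namespace Pool.Agent.H71.OX

open Finset Filter Pool.Agent.H6.NB Pool.Agent.H70.OQ Pool.Agent.H70.EH Pool.Agent.H78.XQ
  Pool.Agent.H78.OX

theorem gdx_num (l : ℕ) (hl : 100 ≤ l) : 4096 * l * (10 * l + 103) ^ 2 ≤ 4 ^ l := by
  induction l, hl using Nat.le_induction with
  | base => norm_num
  | succ l hl ih =>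
    have h1 : (10 * (l + 1) + 103) ^ 2 ≤ 2 * (10 * l + 103) ^ 2 := by nlinarith
    have h2 : l + 1 ≤ 2 * l := by omega
    calc 4096 * (l + 1) * (10 * (l + 1) + 103) ^ 2 ≤ 4096 * (2 * l) * (2 * (10 * l + 103) ^ 2) := by
          gcongr
      _ = 4096 * l * (10 * l + 103) ^ 2 * 4 := by ring
      _ ≤ 4 ^ l * 4 := Nat.mul_le_mul_right _ ih
      _ = 4 ^ (l + 1) := (pow_succ 4 l).symm

theorem gdx_exp (l : ℕ) (x : ℝ) (h : 2 * (l : ℝ) ≤ x) : Real.exp (-x) ≤ (1 / 4) ^ l := by
  have h1 : (2 : ℝ) ≤ Real.exp 1 := by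
    have := Real.add_one_le_exp (1 : ℝ)
    linarith
  have h2 : (4 : ℝ) ≤ Real.exp 2 := by
    have e : Real.exp 2 = Real.exp 1 * Real.exp 1 := by
      rw [← Real.exp_add]; norm_num
    rw [e]; nlinarith
  have h3 : Real.exp (-2) ≤ 1 / 4 := by
    rw [Real.exp_neg, ← one_div]
    exact one_div_le_one_div_of_le (by norm_num) h2
  calc Real.exp (-x) ≤ Real.exp ((l : ℝ) * (-2)) := Real.exp_le_exp.2 (by linarith)
    _ = Real.exp (-2) ^ l := by rw [Real.exp_nat_mul]
    _ ≤ (1 / 4) ^ l := pow_le_pow_left₀ (Real.exp_pos _).le h3 l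

/-- GDX: the copies say the bit with high probability. -/
theorem gdx_ (hCHA : Pool.Agent.H70.EH.T_CHA) (hMUP : T_MUP) (hPHE : T_PHE) (hPHU : T_PHU)
    (hPHB : T_PHB) : T_GDX := by
  classical
  intro s b hl
  have hg : ∀ p : VV (qs s) → Bool, 0 ≤ phi (qs s) p ^ 2 ∧ phi (qs s) p ^ 2 ≤ 1 := fun p =>
    ⟨sq_nonneg _, (sq_le_one_iff_abs_le_one _).2 (hPHB (qs s) p)⟩
  obtain ⟨hm0, hm1, -⟩ := hMUP b (qs s)
  have hq : qs s = 10 * s.length + 100 := rfl
  have hcard : (Fintype.card (Fin (2 ^ (2 * s.length))) : ℝ) = 2 ^ (2 * s.length) := by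
    rw [Fintype.card_fin]; push_cast; rfl
  have hcp : (0 : ℝ) < 2 ^ (2 * s.length) := by positivity
  cases b with
  | false =>
    have hpt : ∀ P : Fin (2 ^ (2 * s.length)) → VV (qs s) → Bool,
        (∏ i, mu false (qs s) (P i)) * (if gdx s false P then (0 : ℝ) else 1) ≤
        2 ^ (4 * s.length) * ((∑ u, (∏ i, mu false (qs s) (P i)) * phi (qs s) (P u) ^ 2) /
          2 ^ (2 * s.length)) := by
      intro P
      have hnn : 0 ≤ ∏ i, mu false (qs s) (P i) := Finset.prod_nonneg fun i _ => hm0 (P i)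
      have e1 : (∑ u, (∏ i, mu false (qs s) (P i)) * phi (qs s) (P u) ^ 2) / 2 ^ (2 * s.length) =
          (∏ i, mu false (qs s) (P i)) * avg (qs s) P := by
        unfold avg
        rw [hcard, ← Finset.mul_sum, mul_div_assoc]
      rw [e1]
      have e2 : (0 : ℝ) ≤ avg (qs s) P := by
        unfold avg
        positivity
      by_cases h : gdx s false P
      · rw [if_pos h, mul_zero]
        positivity
      · rw [if_neg h, mul_one]
        have h1 : 1 / 2 ^ (4 * s.length) < avg (qs s) P := by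
          by_contra hc
          exact h ⟨fun _ => not_lt.1 hc, fun hb => by cases hb⟩
        have h2 : (1 : ℝ) ≤ 2 ^ (4 * s.length) * avg (qs s) P := by
          rw [div_lt_iff₀ (by positivity)] at h1
          linarith
        have h3 := mul_le_mul_of_nonneg_left h2 hnn
        linarith
    have e3 : ∑ P : Fin (2 ^ (2 * s.length)) → VV (qs s) → Bool,
        2 ^ (4 * s.length) * ((∑ u, (∏ i, mu false (qs s) (P i)) * phi (qs s) (P u) ^ 2) /
          2 ^ (2 * s.length)) = (2 : ℝ) ^ (4 * s.length) / 2 ^ (qs s) := by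
      rw [← Finset.mul_sum, ← Finset.sum_div, Finset.sum_comm]
      have e4 : ∀ u : Fin (2 ^ (2 * s.length)), ∑ P : Fin (2 ^ (2 * s.length)) → VV (qs s) → Bool,
          (∏ i, mu false (qs s) (P i)) * phi (qs s) (P u) ^ 2 = 1 / 2 ^ (qs s) := by
        intro u
        have e5 := Pool.Agent.H35.NB.E.sum_prod_marg (Ω := Fin (2 ^ (2 * s.length)))
          (T := fun _ => VV (qs s) → Bool)
          (fun _ p => mu false (qs s) p) (fun _ p => phi (qs s) p ^ 2) (fun _ => hm1) u
        rw [e5]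
        exact hPHU (qs s)
      rw [Finset.sum_congr rfl fun u _ => e4 u, Finset.sum_const, Finset.card_univ, nsmul_eq_mul,
        hcard]
      field_simp
    refine (Finset.sum_le_sum fun P _ => hpt P).trans ?_
    rw [e3, div_le_iff₀ (by positivity), hq]
    have e6 : (1 / 4 : ℝ) ^ s.length * 2 ^ (10 * s.length + 100) =
        2 ^ (8 * s.length + 100) := by
      have : (2 : ℝ) ^ (10 * s.length + 100) = 4 ^ s.length * 2 ^ (8 * s.length + 100) := by
        rw [show (4 : ℝ) = 2 ^ 2 by norm_num, ← pow_mul, ← pow_add]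
        congr 1
        ring
      rw [this, ← mul_assoc, ← mul_pow]
      norm_num
    rw [e6]
    exact pow_le_pow_right₀ (by norm_num) (by omega)
  | true =>
    haveI : Nonempty (Fin (2 ^ (2 * s.length))) := ⟨⟨0, by positivity⟩⟩
    obtain ⟨-, hA⟩ := hCHA (Fin (2 ^ (2 * s.length))) (VV (qs s) → Bool) (mu true (qs s))
      (fun p => phi (qs s) p ^ 2) (eps2 (qs s) ^ 2 / 4) hm0 hm1 hg (by positivity)
    have he : 0 < eps2 (qs s) := by unfold eps2; positivity
    have hmean : eps2 (qs s) ^ 2 / 4 ≤ ∑ p, mu true (qs s) p * phi (qs s) p ^ 2 := by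
      have h1 : (∑ p, mu true (qs s) p * phi (qs s) p) ^ 2 ≤
          (∑ p, mu true (qs s) p) * ∑ p, mu true (qs s) p * phi (qs s) p ^ 2 :=
        Finset.sum_sq_le_sum_mul_sum_of_sq_eq_mul _ (fun p _ => hm0 p)
          (fun p _ => mul_nonneg (hm0 p) (sq_nonneg _)) (fun p _ => by ring)
      rw [hm1, one_mul] at h1
      have h2 := hPHE (qs s)
      have h3 : (eps2 (qs s) / 2) ^ 2 ≤ (∑ p, mu true (qs s) p * phi (qs s) p) ^ 2 :=
        pow_le_pow_left₀ (by positivity) h2 2
      have h4 : (eps2 (qs s) / 2) ^ 2 = eps2 (qs s) ^ 2 / 4 := by ring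
      linarith
    have h := hA hmean
    rw [hcard] at h
    have hx : 2 * (s.length : ℝ) ≤ 2 ^ (2 * s.length) * (eps2 (qs s) ^ 2 / 4) / 8 := by
      have e1 : eps2 (qs s) = 1 / (8 * (10 * (s.length : ℝ) + 103)) := by
        unfold eps2
        rw [hq]
        push_cast
        congr 2
        ring
      have e2 : (4096 * (s.length : ℝ) * (10 * s.length + 103) ^ 2) ≤ 4 ^ s.length := by
        exact_mod_cast gdx_num s.length hl
      have e3 : (2 : ℝ) ^ (2 * s.length) = 4 ^ s.length := by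
        rw [pow_mul]; norm_num
      rw [e1, e3]
      have e4 : (4 : ℝ) ^ s.length * ((1 / (8 * (10 * (s.length : ℝ) + 103))) ^ 2 / 4) / 8 =
          4 ^ s.length / (2048 * (10 * (s.length : ℝ) + 103) ^ 2) := by
        field_simp
        norm_num
      rw [e4, le_div_iff₀ (by positivity)]
      linarith
    refine le_trans (le_of_eq (sum_congr rfl fun P _ => ?_)) (h.trans (gdx_exp s.length _ hx))
    congr 1
    have e5 : gdx s true P ↔
        eps2 (qs s) ^ 2 / 4 / 2 ≤ (∑ u, phi (qs s) (P u) ^ 2) / ((2 : ℝ) ^ (2 * s.length)) := by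
      unfold gdx avg
      rw [hcard]
      have : eps2 (qs s) ^ 2 / 4 / 2 = eps2 (qs s) ^ 2 / 8 := by ring
      rw [this]
      simp
    by_cases hs : gdx s true P
    · rw [if_pos hs, if_pos (e5.1 hs)]
    · rw [if_neg hs, if_neg fun h => hs (e5.2 h)]

end Pool.Agent.H71.OX
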